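import Pool.Agent.H7.JB.Stmts

/-!
Board `jb14`, row ZSM (helper84): a vertex with a moderate number of missing pairs owes nothing
-/

set_option autoImplicit false

open Finset

namespace Pool.JB7

open Pool.Agent.H23.KT Pool.Agent.H46.KW Pool.KQ Pool.GT7 Pool.GU7 Pool.HZ7

namespace ZSM84

theorem kc_one_ge {V : Type} (G : SimpleGraph V) (W : Finset V) : W.card ≤ kc G W 1 := by
  classical
  unfold kc
  rw [Finset.filter_true_of_mem, Finset.card_powersetCard, Nat.choose_one_right]
  intro S hS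
  rw [Finset.mem_powersetCard] at hS
  obtain ⟨x, rfl⟩ := Finset.card_eq_one.1 hS.2
  rw [Finset.coe_singleton]
  exact SimpleGraph.isClique_singleton x

theorem pow_up (e : ℝ) (h0 : 0 ≤ e) (h1 : e ≤ 1) (n : ℕ) :
    (1 + e) ^ n ≤ 1 + ((2 : ℝ) ^ n - 1) * e := by
  induction n with
  | zero => simp
  | succ n ih =>
    have h2 : (1 : ℝ) ≤ 2 ^ n := one_le_pow₀ (by norm_num)
    have h3 : (1 + e) ^ (n + 1) ≤ (1 + ((2 : ℝ) ^ n - 1) * e) * (1 + e) := by
      rw [pow_succ]
      exact mul_le_mul_of_nonneg_right ih (by linarith)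
    have h4 : ((2 : ℝ) ^ n - 1) * e * e ≤ ((2 : ℝ) ^ n - 1) * e * 1 :=
      mul_le_mul_of_nonneg_left h1 (mul_nonneg (by linarith) h0)
    have h5 : (2 : ℝ) ^ (n + 1) = 2 * 2 ^ n := by ring
    rw [h5]
    nlinarith

theorem pow_dn (e : ℝ) (h1 : e ≤ 1) (n : ℕ) : 1 - (n : ℝ) * e ≤ (1 - e) ^ n := by
  have h := one_add_mul_le_pow (a := -e) (by linarith) n
  have e1 : (1 + -e) = 1 - e := by ring
  rw [e1] at h
  linarith

/-- `(1 + e) ^ n ≤ 2` if `n e ≤ 1 / 2` -/
theorem pow_two (e : ℝ) (h0 : 0 ≤ e) (h1 : e ≤ 1) (n : ℕ) (h : (n : ℝ) * e ≤ 1 / 2) :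
    (1 + e) ^ n ≤ 2 := by
  have h2 := pow_dn e h1 n
  have h3 : (1 + e) ^ n * (1 - e) ^ n ≤ 1 := by
    rw [← mul_pow]
    refine pow_le_one₀ ?_ ?_
    · nlinarith
    · nlinarith
  have h4 : (1 + e) ^ n * (1 / 2) ≤ (1 + e) ^ n * (1 - e) ^ n :=
    mul_le_mul_of_nonneg_left (by linarith) (by positivity)
  linarith

theorem fin_calc (q φ e a n N S T K δ : ℝ) (m : ℕ) (hq : q = (m : ℝ) + 2) (hφ0 : 0 < φ)
    (hφ : φ ≤ 1) (he0 : 0 ≤ e) (he : e ≤ 1 / 2) (ha : 0 < a) (hn : 0 ≤ n)
    (hn' : n ≤ (q + 1) * ((1 + e) * a)) (hN : N ≤ ((1 + e) * a) ^ (m + 3))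
    (h1 : S ≤ N * (q * (1 - φ)) + φ * q * T)
    (h2 : ((1 - e) * a) ^ (m + 2) * n ≤ S + K * a ^ (m + 2))
    (hD : (2 * q * (q + 1) + 2 ^ (m + 3) * q) * e ≤ δ / 2) (hK : K ≤ δ / 2 * a) :
    n ≤ q * (1 - φ) * a + q * φ * a / a ^ (m + 3) * T + δ * a := by
  have hq0 : 0 < q := by
    rw [hq]
    positivity
  have hap : 0 < a ^ (m + 2) := pow_pos ha _
  have hφ1 : 0 ≤ q * (1 - φ) := mul_nonneg hq0.le (by linarith)
  have hφ2 : q * (1 - φ) ≤ q := by nlinarith
  -- everything times a ^ (m + 2)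
  have h3 : (1 - e) ^ (m + 2) * n * a ^ (m + 2) ≤
      (1 + e) ^ (m + 3) * a * (q * (1 - φ)) * a ^ (m + 2) + φ * q * T + K * a ^ (m + 2) := by
    have h4 : N * (q * (1 - φ)) ≤ ((1 + e) * a) ^ (m + 3) * (q * (1 - φ)) :=
      mul_le_mul_of_nonneg_right hN hφ1
    have h5 : ((1 + e) * a) ^ (m + 3) * (q * (1 - φ)) =
        (1 + e) ^ (m + 3) * a * (q * (1 - φ)) * a ^ (m + 2) := by
      rw [mul_pow]
      ring
    have h6 : ((1 - e) * a) ^ (m + 2) * n = (1 - e) ^ (m + 2) * n * a ^ (m + 2) := by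
      rw [mul_pow]
      ring
    rw [h6] at h2
    rw [h5] at h4
    linarith
  have h7 : (1 - e) ^ (m + 2) * n ≤
      (1 + e) ^ (m + 3) * a * (q * (1 - φ)) + q * φ * a / a ^ (m + 3) * T + K := by
    have e1 : ((1 - e) ^ (m + 2) * n) = ((1 - e) ^ (m + 2) * n * a ^ (m + 2)) / a ^ (m + 2) := by
      field_simp
    have e2 : (1 + e) ^ (m + 3) * a * (q * (1 - φ)) + q * φ * a / a ^ (m + 3) * T + K =
        ((1 + e) ^ (m + 3) * a * (q * (1 - φ)) * a ^ (m + 2) + φ * q * T + K * a ^ (m + 2)) /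
          a ^ (m + 2) := by
      field_simp
      ring
    rw [e1, e2]
    exact div_le_div_of_nonneg_right h3 hap.le
  have h8 : 1 - q * e ≤ (1 - e) ^ (m + 2) := by
    have := pow_dn e (by linarith) (m + 2)
    push_cast at this
    rw [hq]
    exact this
  have h9 : (1 + e) ^ (m + 3) ≤ 1 + 2 ^ (m + 3) * e := by
    have := pow_up e he0 (by linarith) (m + 3)
    nlinarith
  have h10 : (1 - q * e) * n ≤ (1 - e) ^ (m + 2) * n := mul_le_mul_of_nonneg_right h8 hn
  have h11 : (1 + e) ^ (m + 3) * (a * (q * (1 - φ))) ≤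
      (1 + 2 ^ (m + 3) * e) * (a * (q * (1 - φ))) :=
    mul_le_mul_of_nonneg_right h9 (mul_nonneg ha.le hφ1)
  have h12 : q * e * n ≤ q * e * ((q + 1) * (2 * a)) := by
    refine mul_le_mul_of_nonneg_left (hn'.trans ?_) (mul_nonneg hq0.le he0)
    refine mul_le_mul_of_nonneg_left ?_ (by linarith)
    exact mul_le_mul_of_nonneg_right (by linarith) ha.le
  have h13 : 2 ^ (m + 3) * e * (a * (q * (1 - φ))) ≤ 2 ^ (m + 3) * e * (a * q) := by
    refine mul_le_mul_of_nonneg_left ?_ (by positivity)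
    exact mul_le_mul_of_nonneg_left hφ2 ha.le
  have h14 : (2 * q * (q + 1) + 2 ^ (m + 3) * q) * e * a ≤ δ / 2 * a :=
    mul_le_mul_of_nonneg_right hD ha.le
  nlinarith

/-- products over a box with one or two small sides -/
theorem prod_le_two {b : ℕ} (n : Fin b → ℝ) (M : ℝ) (hn : ∀ j, 0 ≤ n j) (k l : Fin b)
    (hkl : l ≠ k) (hM : ∀ j, j ≠ k → j ≠ l → n j ≤ M) :
    ∏ j, n j ≤ n k * n l * M ^ (b - 2) := by
  classical
  rw [← Finset.mul_prod_erase univ n (mem_univ k),
    ← Finset.mul_prod_erase (univ.erase k) n (mem_erase.2 ⟨hkl, mem_univ l⟩), ← mul_assoc]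
  refine mul_le_mul_of_nonneg_left ?_ (mul_nonneg (hn k) (hn l))
  calc ∏ x ∈ (univ.erase k).erase l, n x ≤ ∏ _x ∈ (univ.erase k).erase l, M := by
        refine Finset.prod_le_prod (fun j _ => hn j) fun j hj => ?_
        rw [mem_erase, mem_erase] at hj
        exact hM j hj.2.1 hj.1
    _ = M ^ (b - 2) := by
        rw [Finset.prod_const, Finset.card_erase_of_mem (mem_erase.2 ⟨hkl, mem_univ l⟩),
          Finset.card_erase_of_mem (mem_univ k), Finset.card_univ, Fintype.card_fin]
        rfl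

/-- bad functions: the value at `l` is not a neighbour of the value at `m` -/
theorem bad_le {V : Type} [DecidableEq V] (G : SimpleGraph V) {b : ℕ} (Q : Fin b → Finset V)
    (m l : Fin b) (hml : m ≠ l) (t : ℕ) (ht : ∀ u ∈ Q m, (non G (Q l) u).card ≤ t)
    (F : Finset (Fin b → V)) (hF : ∀ g ∈ F, (∀ j, g j ∈ Q j) ∧ ¬ G.Adj (g m) (g l)) :
    F.card ≤ t * ∏ j ∈ univ.erase l, (Q j).card := by
  classical
  by_cases hne : F.Nonempty
  · obtain ⟨g₀, hg₀⟩ := hne
    set x₀ := g₀ l with hx₀
    set R : Finset (Fin b → V) := Fintype.piFinset (Function.update Q l {x₀}) with hR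
    have hRc : R.card = ∏ j ∈ univ.erase l, (Q j).card := by
      rw [hR, Fintype.card_piFinset, ← Finset.mul_prod_erase univ _ (mem_univ l)]
      rw [Function.update_self, Finset.card_singleton, one_mul]
      refine Finset.prod_congr rfl fun j hj => ?_
      rw [Function.update_of_ne (ne_of_mem_erase hj)]
    rw [← hRc]
    refine Finset.card_le_mul_card_image_of_maps_to (f := fun g => Function.update g l x₀)
      (fun g hg => ?_) t fun h hh => ?_
    · rw [hR, Fintype.mem_piFinset]
      intro j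
      by_cases hj : j = l
      · subst hj
        simp
      · rw [Function.update_of_ne hj, Function.update_of_ne hj]
        exact (hF g hg).1 j
    · by_cases hhe : (F.filter fun g => Function.update g l x₀ = h).Nonempty
      · obtain ⟨g₁, hg₁⟩ := hhe
        rw [mem_filter] at hg₁
        have hm : h m = g₁ m := by rw [← hg₁.2, Function.update_of_ne hml]
        refine le_trans ?_ (ht (h m) (by rw [hm]; exact (hF g₁ hg₁.1).1 m))
        refine Finset.card_le_card_of_injOn (fun g => g l) (fun g hg => ?_) ?_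
        · have hg' := (mem_filter.1 (Finset.mem_coe.1 hg))
          have h1 := hF g hg'.1
          have h2 : h m = g m := by rw [← hg'.2, Function.update_of_ne hml]
          simp only [Finset.mem_coe]
          unfold non
          rw [mem_filter, h2]
          exact ⟨h1.1 l, h1.2⟩
        · intro g hg g' hg' hgg
          have h1 := (mem_filter.1 (Finset.mem_coe.1 hg)).2
          have h2 := (mem_filter.1 (Finset.mem_coe.1 hg')).2
          funext j
          by_cases hj : j = l
          · rw [hj]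
            exact hgg
          · have h3 := congrFun (h1.trans h2.symm) j
            rwa [Function.update_of_ne hj, Function.update_of_ne hj] at h3
      · rw [Finset.not_nonempty_iff_eq_empty] at hhe
        rw [hhe, Finset.card_empty]
        exact Nat.zero_le _
  · rw [Finset.not_nonempty_iff_eq_empty] at hne
    rw [hne, Finset.card_empty]
    exact Nat.zero_le _

/-- many transversals through a vertex -/
theorem through {V : Type} [DecidableEq V] (G : SimpleGraph V) (p a : ℕ) (e f : ℝ)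
    (P : Fin (p + 3) → Finset V) (he0 : 0 ≤ e) (he : e ≤ 1 / (64 * ((p : ℝ) + 3) ^ 2))
    (hf : f ≤ 1 / (64 * ((p : ℝ) + 3) ^ 2)) (ha : 1 ≤ a)
    (lo : ∀ i, (1 - e) * a ≤ ((P i).card : ℝ)) (hi : ∀ i, ((P i).card : ℝ) ≤ (1 + e) * a)
    (mis : ∀ i, ∀ u ∈ P i, ∀ k, k ≠ i → ((non G (P k) u).card : ℝ) ≤ f * a)
    (k : Fin (p + 3)) (x : V) (hx : x ∈ P k) :
    (a : ℝ) ^ (p + 2) / 2 ≤ (((trv G P).filter (fun g => g k = x)).card : ℝ) := by
  classical
  have haR : (1 : ℝ) ≤ a := by exact_mod_cast ha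
  have haR0 : (0 : ℝ) < a := by linarith
  set c : ℝ := (p : ℝ) + 3 with hc
  have hc3 : 3 ≤ c := by
    rw [hc]
    have : (0 : ℝ) ≤ p := Nat.cast_nonneg p
    linarith
  have hcc : 0 < 64 * c ^ 2 := by positivity
  have he64 : c ^ 2 * e ≤ 1 / 64 := by
    have h1 := mul_le_mul_of_nonneg_left he (sq_nonneg c)
    have h2 : c ^ 2 * (1 / (64 * c ^ 2)) = 1 / 64 := by field_simp
    linarith
  have hce : c * e ≤ 1 / 64 := by nlinarith
  have he1 : e ≤ 1 / 64 := by nlinarith
  set Q : Fin (p + 3) → Finset V := Function.update P k {x} with hQ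
  have hQs : ∀ j, Q j ⊆ P j := by
    intro j
    rw [hQ]
    by_cases hj : j = k
    · subst hj
      rw [Function.update_self, Finset.singleton_subset_iff]
      exact hx
    · rw [Function.update_of_ne hj]
  have hQk : (Q k).card = 1 := by rw [hQ, Function.update_self, Finset.card_singleton]
  set F : Finset (Fin (p + 3) → V) := Fintype.piFinset Q with hF
  set Bad : Fin (p + 3) → Fin (p + 3) → Finset (Fin (p + 3) → V) :=
    fun m l => F.filter (fun g => ¬ G.Adj (g m) (g l)) with hBad
  have hcov : F ⊆ (trv G P).filter (fun g => g k = x) ∪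
      (univ.erase k).biUnion (fun l => (univ.erase l).biUnion (fun m => Bad m l)) := by
    intro g hg
    rw [hF, Fintype.mem_piFinset] at hg
    rw [mem_union, mem_filter]
    by_cases hbad : ∃ l, l ≠ k ∧ ∃ m, m ≠ l ∧ ¬ G.Adj (g m) (g l)
    · right
      obtain ⟨l, hl, m, hm, hb⟩ := hbad
      rw [mem_biUnion]
      refine ⟨l, mem_erase.2 ⟨hl, mem_univ l⟩, ?_⟩
      rw [mem_biUnion]
      refine ⟨m, mem_erase.2 ⟨hm, mem_univ m⟩, ?_⟩
      rw [hBad]
      simp only [mem_filter]
      exact ⟨by rw [hF, Fintype.mem_piFinset]; exact hg, hb⟩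
    · left
      push Not at hbad
      refine ⟨?_, ?_⟩
      · unfold trv
        rw [mem_filter, Fintype.mem_piFinset]
        refine ⟨fun j => hQs j (hg j), ?_⟩
        intro i j hij
        by_cases hj : j = k
        · have hi' : i ≠ k := fun h => hij (h.trans hj.symm)
          exact (hbad i hi' j (Ne.symm hij)).symm
        · exact hbad j hj i hij
      · have := hg k
        rw [hQ, Function.update_self, mem_singleton] at this
        exact this
  set t : ℕ := ⌊f * a⌋₊ with ht
  have hbadc : ∀ l, l ≠ k → ∀ m, m ≠ l → (Bad m l).card ≤ t * ∏ j ∈ univ.erase l, (Q j).card := by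
    intro l hl m hm
    refine bad_le G Q m l hm t (fun u hu => ?_) (Bad m l) fun g hg => ?_
    · have h1 : Q l = P l := by rw [hQ, Function.update_of_ne hl]
      rw [h1]
      exact Nat.le_floor (mis m u (hQs m hu) l (Ne.symm hm))
    · rw [hBad] at hg
      simp only [mem_filter] at hg
      refine ⟨?_, hg.2⟩
      have := hg.1
      rw [hF, Fintype.mem_piFinset] at this
      exact this
  have hfa : 0 ≤ (t : ℝ) := Nat.cast_nonneg _
  have hta : (t : ℝ) ≤ a / (64 * c ^ 2) := by
    rcases le_or_gt 0 (f * a) with h | h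
    · have h1 : (t : ℝ) ≤ f * a := Nat.floor_le h
      have h2 : f * a ≤ 1 / (64 * c ^ 2) * a := mul_le_mul_of_nonneg_right hf haR0.le
      have h3 : 1 / (64 * c ^ 2) * a = a / (64 * c ^ 2) := by ring
      linarith
    · have h1 : t = 0 := by
        rw [ht]
        exact Nat.floor_of_nonpos h.le
      rw [h1]
      push_cast
      positivity
  -- the product over all but one
  have hM0 : 0 ≤ (1 + e) * (a : ℝ) := by positivity
  have hprodl : ∀ l, l ≠ k → ((∏ j ∈ univ.erase l, (Q j).card : ℕ) : ℝ) ≤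
      ((1 + e) * (a : ℝ)) ^ (p + 1) := by
    intro l hl
    have hkl : k ∈ univ.erase l := mem_erase.2 ⟨Ne.symm hl, mem_univ k⟩
    rw [← Finset.mul_prod_erase _ _ hkl, hQk, one_mul]
    push_cast
    calc ∏ j ∈ (univ.erase l).erase k, ((Q j).card : ℝ)
        ≤ ∏ _j ∈ (univ.erase l).erase k, ((1 + e) * (a : ℝ)) := by
          refine Finset.prod_le_prod (fun j _ => Nat.cast_nonneg _) fun j _ => ?_
          have h1 : ((Q j).card : ℝ) ≤ ((P j).card : ℝ) := by
            exact_mod_cast Finset.card_le_card (hQs j)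
          exact h1.trans (hi j)
      _ = ((1 + e) * (a : ℝ)) ^ (p + 1) := by
          rw [Finset.prod_const, Finset.card_erase_of_mem hkl,
            Finset.card_erase_of_mem (mem_univ l), Finset.card_univ, Fintype.card_fin]
          rfl
  -- the whole box
  have hbox : ((1 - e) * (a : ℝ)) ^ (p + 2) ≤ (F.card : ℝ) := by
    rw [hF, Fintype.card_piFinset, ← Finset.mul_prod_erase univ _ (mem_univ k), hQk, one_mul]
    push_cast
    calc ((1 - e) * (a : ℝ)) ^ (p + 2) = ∏ _j ∈ univ.erase k, ((1 - e) * (a : ℝ)) := by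
          rw [Finset.prod_const, Finset.card_erase_of_mem (mem_univ k), Finset.card_univ,
            Fintype.card_fin]
          rfl
      _ ≤ ∏ j ∈ univ.erase k, ((Q j).card : ℝ) := by
          refine Finset.prod_le_prod (fun j _ => mul_nonneg (by linarith) haR0.le) fun j hj => ?_
          rw [hQ, Function.update_of_ne (ne_of_mem_erase hj)]
          exact lo j
  -- the sum of the bad ones
  have hsum : (((univ.erase k).biUnion
      (fun l => (univ.erase l).biUnion (fun m => Bad m l))).card : ℝ) ≤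
      c * (c * (t * ((1 + e) * (a : ℝ)) ^ (p + 1))) := by
    have h1 : (((univ.erase k).biUnion
      (fun l => (univ.erase l).biUnion (fun m => Bad m l))).card : ℝ) ≤
        ∑ l ∈ univ.erase k, ∑ m ∈ univ.erase l, ((Bad m l).card : ℝ) := by
      refine le_trans (Nat.cast_le.2 Finset.card_biUnion_le) ?_
      push_cast
      refine Finset.sum_le_sum fun l _ => ?_
      refine le_trans (Nat.cast_le.2 Finset.card_biUnion_le) ?_
      push_cast
      exact le_rfl
    refine h1.trans ?_
    have h2 : ∀ l ∈ univ.erase k, ∑ m ∈ univ.erase l, ((Bad m l).card : ℝ) ≤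
        c * (t * ((1 + e) * (a : ℝ)) ^ (p + 1)) := by
      intro l hl
      have h3 : ∀ m ∈ univ.erase l, ((Bad m l).card : ℝ) ≤
          t * ((1 + e) * (a : ℝ)) ^ (p + 1) := by
        intro m hm
        have h4 := hbadc l (ne_of_mem_erase hl) m (ne_of_mem_erase hm)
        have h5 : ((Bad m l).card : ℝ) ≤ t * ((∏ j ∈ univ.erase l, (Q j).card : ℕ) : ℝ) := by
          exact_mod_cast h4
        exact h5.trans (mul_le_mul_of_nonneg_left (hprodl l (ne_of_mem_erase hl)) hfa)
      have h6 := Finset.sum_le_card_nsmul _ _ _ h3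
      refine h6.trans ?_
      rw [nsmul_eq_mul]
      refine mul_le_mul_of_nonneg_right ?_ (by positivity)
      rw [Finset.card_erase_of_mem (mem_univ l), Finset.card_univ, Fintype.card_fin, hc]
      push_cast [Nat.cast_sub]
      linarith
    have h6 := Finset.sum_le_card_nsmul _ _ _ h2
    refine h6.trans ?_
    rw [nsmul_eq_mul]
    refine mul_le_mul_of_nonneg_right ?_ (by positivity)
    rw [Finset.card_erase_of_mem (mem_univ k), Finset.card_univ, Fintype.card_fin, hc]
    push_cast [Nat.cast_sub]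
    linarith
  have htotal : (F.card : ℝ) ≤ (((trv G P).filter (fun g => g k = x)).card : ℝ) +
      c * (c * (t * ((1 + e) * (a : ℝ)) ^ (p + 1))) := by
    have h1 : (F.card : ℝ) ≤ (((trv G P).filter (fun g => g k = x)).card : ℝ) +
        (((univ.erase k).biUnion
          (fun l => (univ.erase l).biUnion (fun m => Bad m l))).card : ℝ) := by
      exact_mod_cast (Finset.card_le_card hcov).trans (Finset.card_union_le _ _)
    linarith
  -- numbers
  have hp2 : (1 + e) ^ (p + 1) ≤ 2 := by
    refine pow_two e he0 (by linarith) (p + 1) ?_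
    push_cast
    rw [hc] at hce
    nlinarith
  have hb1 : c * (c * (t * ((1 + e) * (a : ℝ)) ^ (p + 1))) ≤ 1 / 32 * (a : ℝ) ^ (p + 2) := by
    have h1 : (t : ℝ) * ((1 + e) * (a : ℝ)) ^ (p + 1) ≤
        a / (64 * c ^ 2) * (2 * (a : ℝ) ^ (p + 1)) := by
      refine mul_le_mul hta ?_ (by positivity) (by positivity)
      rw [mul_pow]
      exact mul_le_mul_of_nonneg_right hp2 (by positivity)
    have h2 : c * (c * (t * ((1 + e) * (a : ℝ)) ^ (p + 1))) ≤
        c * (c * (a / (64 * c ^ 2) * (2 * (a : ℝ) ^ (p + 1)))) := by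
      refine mul_le_mul_of_nonneg_left ?_ (by linarith)
      exact mul_le_mul_of_nonneg_left h1 (by linarith)
    refine h2.trans (le_of_eq ?_)
    field_simp
    ring
  have hb2 : 63 / 64 * (a : ℝ) ^ (p + 2) ≤ ((1 - e) * (a : ℝ)) ^ (p + 2) := by
    rw [mul_pow]
    refine mul_le_mul_of_nonneg_right ?_ (by positivity)
    have h1 := pow_dn e (by linarith) (p + 2)
    push_cast at h1
    rw [hc] at hce
    nlinarith
  have hap : 0 < (a : ℝ) ^ (p + 2) := by positivity
  linarith

/-- the second factorial moment is at most the first moment -/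
theorem moment {V : Type} [DecidableEq V] (G : SimpleGraph V) (p a : ℕ) (e f : ℝ)
    (P : Fin (p + 3) → Finset V) (he0 : 0 ≤ e) (he : e ≤ 1 / (64 * ((p : ℝ) + 3) ^ 2))
    (hf : f ≤ 1 / (64 * ((p : ℝ) + 3) ^ 2)) (ha : 1 ≤ a)
    (lo : ∀ i, (1 - e) * a ≤ ((P i).card : ℝ)) (hi : ∀ i, ((P i).card : ℝ) ≤ (1 + e) * a)
    (mis : ∀ i, ∀ u ∈ P i, ∀ k, k ≠ i → ((non G (P k) u).card : ℝ) ≤ f * a)
    (z : V) (i : Fin (p + 3)) (hz : ∀ k, k ≠ i → ((non G (P k) z).card : ℝ) ≤ e1 p * a)
    (J : (Fin (p + 3) → V) → ℝ)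
    (hJ : ∀ g, J g = ∑ k ∈ univ.erase i, (if g k ∈ non G (P k) z then (1 : ℝ) else 0)) :
    ∑ g ∈ trv G P, (J g * J g - J g) ≤ ∑ g ∈ trv G P, J g := by
  classical
  have he1p : 0 ≤ e1 p := by
    unfold e1
    positivity
  have haR : (1 : ℝ) ≤ a := by exact_mod_cast ha
  have haR0 : (0 : ℝ) < a := by linarith
  set c : ℝ := (p : ℝ) + 3 with hc
  have hp0 : (0 : ℝ) ≤ p := Nat.cast_nonneg p
  have hc3 : 3 ≤ c := by
    rw [hc]
    linarith
  have hcc : 0 < 64 * c ^ 2 := by positivity
  have he64 : c ^ 2 * e ≤ 1 / 64 := by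
    have h1 := mul_le_mul_of_nonneg_left he (sq_nonneg c)
    have h2 : c ^ 2 * (1 / (64 * c ^ 2)) = 1 / 64 := by field_simp
    linarith
  have hce : c * e ≤ 1 / 64 := by nlinarith
  have he1 : e ≤ 1 / 64 := by nlinarith
  set χ : (Fin (p + 3) → V) → Fin (p + 3) → ℝ :=
    fun g k => if g k ∈ non G (P k) z then (1 : ℝ) else 0 with hχ
  have hχ0 : ∀ g k, 0 ≤ χ g k := by
    intro g k
    rw [hχ]
    simp only
    split_ifs <;> norm_num
  have hχs : ∀ g k, χ g k * χ g k = χ g k := by
    intro g k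
    rw [hχ]
    simp only
    split_ifs <;> norm_num
  have hJ' : ∀ g, J g = ∑ k ∈ univ.erase i, χ g k := hJ
  -- the expansion
  have hexp : ∀ g, J g * J g - J g =
      ∑ k ∈ univ.erase i, ∑ l ∈ (univ.erase i).erase k, χ g k * χ g l := by
    intro g
    rw [hJ' g, Finset.sum_mul_sum, ← Finset.sum_sub_distrib]
    refine Finset.sum_congr rfl fun k hk => ?_
    rw [← Finset.add_sum_erase _ _ hk, hχs]
    ring
  rw [Finset.sum_congr rfl fun g _ => hexp g, Finset.sum_congr rfl fun g _ => hJ' g,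
    Finset.sum_comm, Finset.sum_comm (s := trv G P) (t := univ.erase i) (f := fun g k => χ g k)]
  refine Finset.sum_le_sum fun k hk => ?_
  have hki : k ≠ i := ne_of_mem_erase hk
  rw [Finset.sum_comm]
  -- lower bound for the first moment
  have hlow : ((non G (P k) z).card : ℝ) * ((a : ℝ) ^ (p + 2) / 2) ≤ ∑ g ∈ trv G P, χ g k := by
    have h1 : ∑ g ∈ trv G P, χ g k =
        ∑ x ∈ non G (P k) z, (((trv G P).filter (fun g => g k = x)).card : ℝ) := by
      rw [hχ]
      simp only
      rw [← Finset.sum_filter, Finset.sum_const, nsmul_eq_mul, mul_one]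
      have h2 : (trv G P).filter (fun g => g k ∈ non G (P k) z) =
          (non G (P k) z).biUnion (fun x => (trv G P).filter (fun g => g k = x)) := by
        ext g
        simp only [mem_filter, mem_biUnion]
        constructor
        · rintro ⟨h, h'⟩
          exact ⟨g k, h', h, rfl⟩
        · rintro ⟨x, hx, h, rfl⟩
          exact ⟨h, hx⟩
      rw [h2, Finset.card_biUnion]
      · push_cast
        rfl
      · intro x _ y _ hxy
        change Disjoint _ _
        rw [Finset.disjoint_left]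
        intro g hg hg'
        rw [mem_filter] at hg hg'
        exact hxy (hg.2.symm.trans hg'.2)
    rw [h1]
    have h3 : ∀ x ∈ non G (P k) z, (a : ℝ) ^ (p + 2) / 2 ≤
        (((trv G P).filter (fun g => g k = x)).card : ℝ) := by
      intro x hx
      have hxk : x ∈ P k := by
        unfold non at hx
        exact (mem_filter.1 hx).1
      exact through G p a e f P he0 he hf ha lo hi mis k x hxk
    have h4 := Finset.card_nsmul_le_sum _ _ _ h3
    rw [nsmul_eq_mul] at h4
    exact h4
  -- upper bound for the pairs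
  have hpair : ∀ l ∈ (univ.erase i).erase k, ∑ g ∈ trv G P, χ g k * χ g l ≤
      ((non G (P k) z).card : ℝ) * (e1 p * a) * (2 * (a : ℝ) ^ (p + 1)) := by
    intro l hl
    have hlk : l ≠ k := ne_of_mem_erase hl
    have hli : l ≠ i := ne_of_mem_erase (mem_of_mem_erase hl)
    set Q : Fin (p + 3) → Finset V :=
      fun j => if j = k then non G (P k) z else if j = l then non G (P l) z else P j with hQ
    have h1 : ∑ g ∈ trv G P, χ g k * χ g l ≤ ((Fintype.piFinset Q).card : ℝ) := by
      have h2 : ∀ g, χ g k * χ g l =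
          if g k ∈ non G (P k) z ∧ g l ∈ non G (P l) z then (1 : ℝ) else 0 := by
        intro g
        rw [hχ]
        simp only
        by_cases h3 : g k ∈ non G (P k) z <;> by_cases h4 : g l ∈ non G (P l) z <;> simp [h3, h4]
      rw [Finset.sum_congr rfl fun g _ => h2 g, ← Finset.sum_filter, Finset.sum_const,
        nsmul_eq_mul, mul_one]
      refine Nat.cast_le.2 (Finset.card_le_card fun g hg => ?_)
      rw [mem_filter] at hg
      rw [Fintype.mem_piFinset]
      intro j
      rw [hQ]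
      simp only
      have h5 : g j ∈ P j := by
        have := hg.1
        unfold trv at this
        rw [mem_filter, Fintype.mem_piFinset] at this
        exact this.1 j
      split_ifs with h6 h7
      · rw [h6]
        exact hg.2.1
      · rw [h7]
        exact hg.2.2
      · exact h5
    refine h1.trans ?_
    rw [Fintype.card_piFinset]
    push_cast
    have h2 := prod_le_two (fun j => ((Q j).card : ℝ)) ((1 + e) * (a : ℝ))
      (fun j => Nat.cast_nonneg _) k l hlk (fun j hjk hjl => by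
        rw [hQ]
        simp only [if_neg hjk, if_neg hjl]
        exact hi j)
    have h3 : Q k = non G (P k) z := by
      rw [hQ]
      simp
    have h4 : Q l = non G (P l) z := by
      rw [hQ]
      simp [hlk]
    simp only [h3, h4] at h2
    refine h2.trans ?_
    have h5 : p + 3 - 2 = p + 1 := by omega
    rw [h5]
    refine mul_le_mul ?_ ?_ (by positivity)
      (mul_nonneg (Nat.cast_nonneg _) (mul_nonneg he1p haR0.le))
    · exact mul_le_mul_of_nonneg_left (hz l hli) (Nat.cast_nonneg _)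
    · rw [mul_pow]
      refine mul_le_mul_of_nonneg_right ?_ (by positivity)
      refine pow_two e he0 (by linarith) (p + 1) ?_
      push_cast
      rw [hc] at hce
      nlinarith
  have hsum := Finset.sum_le_card_nsmul _ _ _ hpair
  refine hsum.trans (le_trans ?_ hlow)
  rw [nsmul_eq_mul]
  have h6 : (((univ.erase i).erase k).card : ℝ) ≤ c := by
    have h7 : ((univ.erase i).erase k).card ≤ (univ : Finset (Fin (p + 3))).card :=
      Finset.card_le_card ((Finset.erase_subset _ _).trans (Finset.erase_subset _ _))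
    rw [Finset.card_univ, Fintype.card_fin] at h7
    rw [hc]
    exact_mod_cast h7
  have hn0 : (0 : ℝ) ≤ ((non G (P k) z).card : ℝ) := Nat.cast_nonneg _
  have hX0 : 0 ≤ ((non G (P k) z).card : ℝ) * (e1 p * a) * (2 * (a : ℝ) ^ (p + 1)) :=
    mul_nonneg (mul_nonneg hn0 (mul_nonneg he1p haR0.le)) (by positivity)
  refine (mul_le_mul_of_nonneg_right h6 hX0).trans ?_
  have h8 : c * (((non G (P k) z).card : ℝ) * (e1 p * a) * (2 * (a : ℝ) ^ (p + 1))) =
      ((non G (P k) z).card : ℝ) * (a : ℝ) ^ (p + 2) * (2 * (c * e1 p)) := by ring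
  rw [h8]
  have h9 : 2 * (c * e1 p) ≤ 1 / 2 := by
    unfold e1
    rw [← hc]
    have hc0 : c ≠ 0 := by linarith
    have h10 : 2 * (c * (1 / (16 * c ^ 3))) = 1 / (8 * c ^ 2) := by
      rw [mul_one_div, mul_div_assoc', div_eq_div_iff (by positivity) (by positivity)]
      ring
    rw [h10, div_le_div_iff₀ (by positivity) (by norm_num)]
    nlinarith
  have h11 : ((non G (P k) z).card : ℝ) * (a : ℝ) ^ (p + 2) * (2 * (c * e1 p)) ≤
      ((non G (P k) z).card : ℝ) * (a : ℝ) ^ (p + 2) * (1 / 2) :=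
    mul_le_mul_of_nonneg_left h9 (by positivity)
  refine h11.trans (le_of_eq ?_)
  ring

end ZSM84

theorem zsm_thm (hGCG : GCGStmt) (hEXB : EXBStmt) (hTRV : TRVStmt) (_hBRK : BRKStmt) : ZSMStmt := by
  classical
  intro p r hpr δ hδ
  obtain ⟨-, hφ0, hφ1, -, hg2, -⟩ := hGCG p r hpr
  have hgr := hpr.gr
  have hrp := hpr.rp
  have hr1 : (1 : ℝ) ≤ r := by exact_mod_cast (by omega : 1 ≤ r)
  set q : ℝ := (p : ℝ) + 2 with hq
  have hq0 : 0 < q := by
    rw [hq]
    positivity
  set D : ℝ := 2 * q * (q + 1) + 2 ^ (p + 3) * q with hD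
  have hD0 : 0 < D := by
    rw [hD]
    positivity
  refine ⟨min (1 / (64 * ((p : ℝ) + 3) ^ 2)) (δ / (2 * D)), lt_min (by positivity) (by positivity),
    min_le_left _ _, ?_⟩
  intro C hC
  set K : ℝ := ((p : ℝ) + 3) * C * 2 ^ (p + 1) with hK
  have hK0 : 0 < K := by
    rw [hK]
    positivity
  obtain ⟨a₁, ha₁⟩ := exists_nat_ge (2 * K / δ)
  refine ⟨max 1 a₁, ?_⟩
  intro a ha V _ G e f C' W P U he0 he hf hS hCB z hz i hzi hzi'
  have ha1 : 1 ≤ a := le_trans (le_max_left _ _) ha
  have ha2 : a₁ ≤ a := le_trans (le_max_right _ _) ha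
  have haR : (0 : ℝ) < a := by exact_mod_cast ha1
  have he64 : e ≤ 1 / (64 * ((p : ℝ) + 3) ^ 2) := he.trans (min_le_left _ _)
  have heh : e ≤ 1 / 2 := by
    refine he64.trans ?_
    have hp0 : (0 : ℝ) ≤ p := Nat.cast_nonneg p
    rw [div_le_div_iff₀ (by positivity) (by norm_num)]
    nlinarith
  have heD : e ≤ δ / (2 * D) := he.trans (min_le_right _ _)
  have hKa : K ≤ δ / 2 * a := by
    have h1 : 2 * K / δ ≤ (a : ℝ) := ha₁.trans (by exact_mod_cast ha2)
    rw [div_le_iff₀ hδ] at h1
    linarith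
  have hDe : D * e ≤ δ / 2 := by
    have h1 : D * e ≤ D * (δ / (2 * D)) := mul_le_mul_of_nonneg_left heD hD0.le
    have h2 : D * (δ / (2 * D)) = δ / 2 := by
      field_simp
    linarith
  -- the sum of GCG (2) over the transversals
  set J : (Fin (p + 3) → V) → ℝ :=
    fun g => ∑ k ∈ univ.erase i, (if g k ∈ non G (P k) z then (1 : ℝ) else 0) with hJ
  have hmom := ZSM84.moment G p a e f P he0 he64 hf ha1 hS.lo hS.hi hS.mis z i hzi J
    (fun g => rfl)
  have hJ0 : ∀ g, 0 ≤ J g := by
    intro g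
    rw [hJ]
    refine Finset.sum_nonneg fun k _ => ?_
    split_ifs <;> norm_num
  -- the number of neighbours
  have hBJ : ∀ g ∈ trv G P, (nb G (univ.image g) z).card ≤ p + 2 ∧
      ((nb G (univ.image g) z).card : ℝ) = q - J g := by
    intro g hg
    unfold trv at hg
    rw [mem_filter, Fintype.mem_piFinset] at hg
    obtain ⟨hgP, hgA⟩ := hg
    have hinj : Function.Injective g := by
      intro x y hxy
      by_contra hne
      have := hgA x y hne
      rw [hxy] at this
      exact G.loopless.irrefl _ this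
    have h1 : nb G (univ.image g) z = (univ.filter (fun k => G.Adj z (g k))).image g := by
      ext y
      rw [mem_nb]
      simp only [mem_image, mem_filter, mem_univ, true_and]
      constructor
      · rintro ⟨⟨k, rfl⟩, h⟩
        exact ⟨k, h, rfl⟩
      · rintro ⟨k, h, rfl⟩
        exact ⟨⟨k, rfl⟩, h⟩
    have h2 : (nb G (univ.image g) z).card = (univ.filter (fun k => G.Adj z (g k))).card := by
      rw [h1, Finset.card_image_of_injective _ hinj]
    have h3 : (univ.filter (fun k => G.Adj z (g k))) =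
        (univ.erase i).filter (fun k => G.Adj z (g k)) := by
      ext k
      simp only [mem_filter, mem_univ, true_and, mem_erase, and_true]
      constructor
      · intro h
        refine ⟨?_, h⟩
        rintro rfl
        exact hzi' _ (hgP k) h
      · exact fun h => h.2
    have h4 : J g = (((univ.erase i).filter (fun k => ¬ G.Adj z (g k))).card : ℝ) := by
      rw [hJ]
      simp only
      rw [← Finset.sum_filter, Finset.sum_const, nsmul_eq_mul, mul_one]
      congr 2
      ext k
      simp only [mem_filter, mem_erase, mem_univ, and_true]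
      unfold non
      rw [mem_filter]
      constructor
      · rintro ⟨h, h'⟩
        exact ⟨h, h'.2⟩
      · rintro ⟨h, h'⟩
        exact ⟨h, hgP k, h'⟩
    have h5 := Finset.card_filter_add_card_filter_not (s := univ.erase i)
      (fun k => G.Adj z (g k))
    rw [Finset.card_erase_of_mem (mem_univ i), Finset.card_univ, Fintype.card_fin] at h5
    have h6 : p + 3 - 1 = p + 2 := by omega
    rw [h6] at h5
    rw [h2, h3]
    refine ⟨by omega, ?_⟩
    rw [h4, hq]
    have h7 : (((univ.erase i).filter (fun k => G.Adj z (g k))).card : ℝ) +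
        (((univ.erase i).filter (fun k => ¬ G.Adj z (g k))).card : ℝ) = (p : ℝ) + 2 := by
      exact_mod_cast h5
    linarith
  have hsum : (∑ L ∈ clq G (un P) (p + 3), ((nb G L z).card : ℝ)) ≤
      (kc G (un P) (p + 3) : ℝ) * (q * (1 - ph p r)) + ph p r * q * TZ G p r (un P) z := by
    have h2 : (kc G (un P) (p + 3) : ℝ) * (q * (1 - ph p r)) =
        ∑ L ∈ clq G (un P) (p + 3), (q * (1 - ph p r)) := by
      rw [Finset.sum_const, nsmul_eq_mul, kc_eq]
    have h3 : ph p r * q * TZ G p r (un P) z =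
        ∑ L ∈ clq G (un P) (p + 3), ph p r * q * ww p r (nb G L z).card := by
      unfold TZ
      rw [Finset.mul_sum]
    rw [h2, h3, ← Finset.sum_add_distrib, ← sub_nonneg, ← Finset.sum_sub_distrib]
    rw [(hTRV G P hS.par).2 (fun L => q * (1 - ph p r) + ph p r * q * ww p r (nb G L z).card -
      ((nb G L z).card : ℝ))]
    have h4 : ∀ g ∈ trv G P, (r : ℝ) * J g - (J g * J g - J g) ≤
        2 * r * (q * (1 - ph p r) + ph p r * q * ww p r (nb G (univ.image g) z).card -
          ((nb G (univ.image g) z).card : ℝ)) := by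
      intro g hg
      obtain ⟨h5, h6⟩ := hBJ g hg
      have h7 := hg2 _ h5
      refine le_trans (le_of_eq ?_) h7
      rw [h6, hq]
      ring
    have h8 := Finset.sum_le_sum h4
    rw [Finset.sum_sub_distrib, ← Finset.mul_sum, ← Finset.mul_sum] at h8
    have h9 : ∑ g ∈ trv G P, J g ≤ r * ∑ g ∈ trv G P, J g := by
      have h10 : 0 ≤ ∑ g ∈ trv G P, J g := Finset.sum_nonneg fun g _ => hJ0 g
      nlinarith
    have h11 : 0 ≤ 2 * (r : ℝ) * ∑ g ∈ trv G P, (q * (1 - ph p r) +
        ph p r * q * ww p r (nb G (univ.image g) z).card -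
          ((nb G (univ.image g) z).card : ℝ)) := by linarith
    exact nonneg_of_mul_nonneg_right h11 (by linarith)
  have hEx := hEXB G p a e P he0 heh hS.par (fun i => ⟨hS.lo i, hS.hi i⟩) z 1 (by omega)
  have hn1 : ((nb G (un P) z).card : ℝ) ≤ (kc G (nb G (un P) z) 1 : ℝ) := by
    exact_mod_cast ZSM84.kc_one_ge G _
  have h1e : 0 ≤ (1 - e) * (a : ℝ) := mul_nonneg (by linarith) haR.le
  have hEx2 : ((1 - e) * (a : ℝ)) ^ (p + 2) * ((nb G (un P) z).card : ℝ) ≤
      (∑ L ∈ clq G (un P) (p + 3), ((nb G L z).card : ℝ)) + K * (a : ℝ) ^ (p + 2) := by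
    have h1 : ((1 - e) * (a : ℝ)) ^ (p + 2) * ((nb G (un P) z).card : ℝ) ≤
        ((1 - e) * (a : ℝ)) ^ (p + 2) * (kc G (nb G (un P) z) 1 : ℝ) :=
      mul_le_mul_of_nonneg_left hn1 (pow_nonneg h1e _)
    have h2 : p + 3 - 1 = p + 2 := by omega
    rw [h2] at hEx
    have h3 : ((p + 3).choose 1 : ℝ) * (tot G P * (2 * (a : ℝ)) ^ (p + 1)) ≤
        K * (a : ℝ) ^ (p + 2) := by
      rw [Nat.choose_one_right]
      push_cast
      have h4 : (tot G P : ℝ) * (2 * (a : ℝ)) ^ (p + 1) ≤ C * a * (2 * (a : ℝ)) ^ (p + 1) :=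
        mul_le_mul_of_nonneg_right hS.tot (by positivity)
      have h5 : ((p : ℝ) + 3) * ((tot G P : ℝ) * (2 * (a : ℝ)) ^ (p + 1)) ≤
          ((p : ℝ) + 3) * (C * a * (2 * (a : ℝ)) ^ (p + 1)) :=
        mul_le_mul_of_nonneg_left h4 (by positivity)
      refine h5.trans (le_of_eq ?_)
      rw [hK, mul_pow]
      ring
    have h4 : ∑ L ∈ clq G (un P) (p + 3), (((nb G L z).card.choose 1 : ℕ) : ℝ) =
        ∑ L ∈ clq G (un P) (p + 3), ((nb G L z).card : ℝ) := by
      refine Finset.sum_congr rfl fun L _ => ?_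
      rw [Nat.choose_one_right]
    rw [h4] at hEx
    linarith
  -- sizes
  have hprod : (kc G (un P) (p + 3) : ℝ) ≤ ((1 + e) * (a : ℝ)) ^ (p + 3) := by
    have h1 := (hTRV G P hS.par).1
    have h2 : (trv G P).card ≤ ∏ i, (P i).card := by
      rw [← Fintype.card_piFinset]
      unfold trv
      exact Finset.card_filter_le _ _
    have h3 : (kc G (un P) (p + 3) : ℝ) ≤ ∏ i, ((P i).card : ℝ) := by
      rw [h1]
      exact_mod_cast h2
    refine h3.trans ?_
    calc ∏ i, ((P i).card : ℝ) ≤ ∏ _i : Fin (p + 3), ((1 + e) * (a : ℝ)) :=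
          Finset.prod_le_prod (fun i _ => Nat.cast_nonneg _) (fun i _ => hS.hi i)
      _ = ((1 + e) * (a : ℝ)) ^ (p + 3) := by
          rw [Finset.prod_const, Finset.card_univ, Fintype.card_fin]
  have hcard : ((nb G (un P) z).card : ℝ) ≤ (q + 1) * ((1 + e) * (a : ℝ)) := by
    have h1 : (nb G (un P) z).card ≤ ∑ i, (P i).card :=
      (Finset.card_le_card (nb_subset G (un P) z)).trans (by
        unfold un
        exact Finset.card_biUnion_le)
    have h2 : ((nb G (un P) z).card : ℝ) ≤ ∑ i, ((P i).card : ℝ) := by exact_mod_cast h1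
    refine h2.trans ?_
    calc ∑ i, ((P i).card : ℝ) ≤ ∑ _i : Fin (p + 3), ((1 + e) * (a : ℝ)) :=
          Finset.sum_le_sum fun i _ => hS.hi i
      _ = (q + 1) * ((1 + e) * (a : ℝ)) := by
          rw [Finset.sum_const, Finset.card_univ, Fintype.card_fin, nsmul_eq_mul, hq]
          push_cast
          ring
  have hfin := ZSM84.fin_calc q (ph p r) e a ((nb G (un P) z).card : ℝ)
    (kc G (un P) (p + 3) : ℝ) (∑ L ∈ clq G (un P) (p + 3), ((nb G L z).card : ℝ))
    (TZ G p r (un P) z) K δ p hq hφ0 hφ1.le he0 heh haR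
    (Nat.cast_nonneg _) hcard hprod hsum hEx2 hDe hKa
  unfold Mz
  exact hfin

end Pool.JB7
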